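import Pool.Agent.H4.AM.Targets

open scoped Classical

namespace AMx

/-- L3: sums of invariant functions are congruent to the sum over the fixed points. -/
theorem L3 : T_L3 := by
  intro 𝔪 ℓ _ hℓ Q Ω _ _ _ _ hQ f hf hinv
  obtain ⟨F, hF⟩ : ∃ F : Ω → integralClosure ℤ ℂ, F = fun ω =>
    if (∀ q : Q, q • ω = ω) then 0 else ⟨f ω, hf ω⟩ := ⟨_, rfl⟩
  have : Fintype (MulAction.orbitRel.Quotient Q Ω) := Fintype.ofFinite _
  refine ⟨∑ ω, F ω, ?_, ?_⟩
  · rw [← Finset.sum_fiberwise (s := Finset.univ)
      (g := fun ω => (Quotient.mk (MulAction.orbitRel Q Ω) ω :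
        MulAction.orbitRel.Quotient Q Ω))]
    refine Ideal.sum_mem _ (fun O _ => ?_)
    induction O using Quotient.inductionOn with
    | h ω =>
      have hmem : ∀ ω' : Ω, (Quotient.mk (MulAction.orbitRel Q Ω) ω' :
          MulAction.orbitRel.Quotient Q Ω) = Quotient.mk (MulAction.orbitRel Q Ω) ω ↔
          ∃ q : Q, q • ω = ω' := by
        intro ω'
        rw [Quotient.eq]
        exact Iff.rfl
      have hconst : ∀ q : Q, F (q • ω) = F ω := by
        intro q
        rw [hF]
        have h1 : (∀ q' : Q, q' • (q • ω) = q • ω) ↔ (∀ q' : Q, q' • ω = ω) := by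
          constructor
          · intro h q'
            have h2 := h (q * q' * q⁻¹)
            rw [smul_smul, inv_mul_cancel_right, mul_smul] at h2
            exact smul_left_cancel q h2
          · intro h q'
            rw [h q, h q']
        by_cases h3 : ∀ q' : Q, q' • ω = ω
        · simp only [h3, implies_true, if_true]
        · have h4 : ¬ ∀ q' : Q, q' • (q • ω) = q • ω := fun h => h3 (h1.mp h)
          simp only [if_neg h3, if_neg h4]
          exact Subtype.ext (hinv q ω)
      have hsum : ∑ ω' ∈ (Finset.univ.filter (fun ω' : Ω =>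
          (Quotient.mk (MulAction.orbitRel Q Ω) ω' : MulAction.orbitRel.Quotient Q Ω) =
            Quotient.mk (MulAction.orbitRel Q Ω) ω)), F ω' =
          (Nat.card (MulAction.orbit Q ω) : integralClosure ℤ ℂ) * F ω := by
        have h5 : ∀ ω' ∈ (Finset.univ.filter (fun ω' : Ω =>
          (Quotient.mk (MulAction.orbitRel Q Ω) ω' : MulAction.orbitRel.Quotient Q Ω) =
            Quotient.mk (MulAction.orbitRel Q Ω) ω)), F ω' = F ω := by
          intro ω' hω'
          rw [Finset.mem_filter] at hω'
          obtain ⟨q, rfl⟩ := (hmem ω').mp hω'.2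
          exact hconst q
        rw [Finset.sum_congr rfl h5, Finset.sum_const, nsmul_eq_mul]
        congr 2
        rw [Nat.card_eq_fintype_card, ← Set.toFinset_card]
        congr 1
        ext ω'
        simp only [Finset.mem_filter, Finset.mem_univ, true_and, Set.mem_toFinset]
        rw [hmem]
        exact Iff.rfl
      refine (congrArg (fun y => y ∈ 𝔪) hsum).mpr ?_
      by_cases hω : ∀ q : Q, q • ω = ω
      · have : F ω = 0 := by
          rw [hF]
          simp only [hω, implies_true, if_true]
        rw [this, mul_zero]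
        exact 𝔪.zero_mem
      · obtain ⟨n, hn⟩ := hQ.card_orbit ω
        have hn0 : n ≠ 0 := by
          rintro rfl
          rw [pow_zero] at hn
          apply hω
          intro q
          have h6 : Subsingleton (MulAction.orbit Q ω) :=
            (Nat.card_eq_one_iff_unique.mp hn).1
          have := h6.elim ⟨q • ω, MulAction.mem_orbit ω q⟩ ⟨ω, MulAction.mem_orbit_self ω⟩
          exact congrArg Subtype.val this
        rw [hn]
        obtain ⟨m, rfl⟩ := Nat.exists_eq_succ_of_ne_zero hn0
        rw [Nat.succ_eq_add_one, pow_succ]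
        push_cast
        rw [mul_assoc]
        exact 𝔪.mul_mem_left _ (𝔪.mul_mem_right _ hℓ)
  · have h7 : ((∑ ω, F ω : integralClosure ℤ ℂ) : ℂ) = ∑ ω, (F ω : ℂ) := by
      exact map_sum (algebraMap (integralClosure ℤ ℂ) ℂ) F Finset.univ
    rw [h7, ← Finset.sum_sub_distrib]
    refine Finset.sum_congr rfl (fun ω _ => ?_)
    rw [hF]
    by_cases hω : ∀ q : Q, q • ω = ω
    · simp only [hω, implies_true, if_true]
      simp
    · simp only [if_neg hω]
      simp

end AMx
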