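import Pool.Agent.H4.AM.Targets

open scoped Classical

namespace AMx

/-- B1: `c_x(t)` modulo `𝔪` only depends on the `v` centralised by an `ℓ`-subgroup centralising
`t`. -/
theorem B1 (h3 : T_L3) (hF0 : T_F0) : T_B1 := by
  intro ℓ _ 𝔪 _ hℓ X T _ _ _ _ F Q hQ x t hQt
  obtain ⟨-, -, hint, -⟩ := hF0 ℓ X T F
  let act : MulAction Q X :=
    { smul := fun q v => F.io q * v * (F.io q)⁻¹
      one_smul := fun v => by
        change F.io ((1 : Q) : T) * v * (F.io ((1 : Q) : T))⁻¹ = v
        simp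
      mul_smul := fun a b v => by
        change F.io ((a * b : Q) : T) * v * (F.io ((a * b : Q) : T))⁻¹ =
          F.io a * (F.io b * v * (F.io b)⁻¹) * (F.io a)⁻¹
        simp only [Subgroup.coe_mul, map_mul]
        group }
  have hact : ∀ (q : Q) (v : X), q • v = F.io q * v * (F.io q)⁻¹ := fun _ _ => rfl
  have hlam : ∀ (q : Q) (v : X), F.lam (q • v) = F.lam v := by
    intro q v
    rw [hact]
    by_cases hv : v ∈ F.V
    · exact (F.stab (F.io q)).mpr ⟨1, F.V.one_mem, q, by simp⟩ v hv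
    · have h1 : F.io q * v * (F.io q)⁻¹ ∉ F.V := by
        intro h
        apply hv
        have := F.norm.conj_mem _ h (F.io q)⁻¹
        have h2 : (F.io q)⁻¹ * (F.io q * v * (F.io q)⁻¹) * (F.io q)⁻¹⁻¹ = v := by group
        rwa [h2] at this
      rw [F.lam_off _ hv, F.lam_off _ h1]
  have hcomm : ∀ q : Q, F.io q * F.io t = F.io t * F.io q := by
    intro q
    have := Subgroup.mem_centralizer_iff.mp (hQt q.2) t rfl
    rw [← map_mul, ← map_mul, this]
  have hconj : ∀ (q : Q) (v : X), IsConj x ((q • v) * F.io t) ↔ IsConj x (v * F.io t) := by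
    intro q v
    rw [hact]
    have h1 : IsConj (F.io q * v * (F.io q)⁻¹ * F.io t) (v * F.io t) := by
      refine (isConj_iff.mpr ⟨(F.io q)⁻¹, ?_⟩)
      have h2 : (F.io q)⁻¹ * F.io t = F.io t * (F.io q)⁻¹ := by
        rw [inv_mul_eq_iff_eq_mul, ← mul_assoc, hcomm q, mul_inv_cancel_right]
      calc (F.io q)⁻¹ * (F.io q * v * (F.io q)⁻¹ * F.io t) * (F.io q)⁻¹⁻¹
          = v * ((F.io q)⁻¹ * F.io t) * F.io q := by group
        _ = v * F.io t := by rw [h2]; group
    exact ⟨fun h => h.trans h1, fun h => h.trans h1.symm⟩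
  have key := h3 𝔪 ℓ hℓ Q X hQ (fun v => if IsConj x (v * F.io t) then F.lam v else 0)
    (fun v => by
      by_cases hc : IsConj x (v * F.io t)
      · simp only [if_pos hc]
        by_cases hv : v ∈ F.V
        · exact (hint v hv).1
        · rw [F.lam_off _ hv]
          exact isIntegral_zero
      · simp only [if_neg hc]
        exact isIntegral_zero)
    (fun q v => by
      simp only [hconj, hlam])
  have e1 : cc F x t = ∑ v : X, (if IsConj x (v * F.io t) then F.lam v else 0) := by
    unfold cc Fr.ph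
    refine Finset.sum_congr rfl (fun v _ => ?_)
    by_cases hc : IsConj x (v * F.io t)
    · simp
    · simp
  have e2 : (∑ v : X, if (∀ q ∈ Q, F.io q * v * (F.io q)⁻¹ = v) ∧ IsConj x (v * F.io t)
      then F.lam v else 0) = ∑ v : X, if (∀ q : Q, q • v = v) then
        (if IsConj x (v * F.io t) then F.lam v else 0) else 0 := by
    refine Finset.sum_congr rfl (fun v _ => ?_)
    have h4 : (∀ q : Q, q • v = v) ↔ (∀ q ∈ Q, F.io q * v * (F.io q)⁻¹ = v) :=
      ⟨fun h q hq => h ⟨q, hq⟩, fun h q => h q q.2⟩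
    by_cases ha : ∀ q ∈ Q, F.io q * v * (F.io q)⁻¹ = v
    · rw [if_pos (h4.mpr ha)]
      by_cases hc : IsConj x (v * F.io t)
      · rw [if_pos ⟨ha, hc⟩, if_pos hc]
      · rw [if_neg (fun h => hc h.2), if_neg hc]
    · rw [if_neg (fun h => ha (h4.mp h)), if_neg (fun h => ha h.1)]
  rw [e1, e2]
  convert key using 3

end AMx
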